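import Pool.Agent.U920.GQ.Lev

/-!
# The McKay–Galois conjecture: one congruence for each group of field automorphisms decides

Let `p ≠ q` be primes (`p = 2` is allowed) and let `S` be a group of order `q`.

Proof. The characters of degree prime to `p` of the regular wreath product `G ≀ S` are the induced
characters of the products of nonconstant families `(θ_s)`, `s ∈ S`, of characters in `Irr_{p'}(G)`, and
the `q` extensions of the products of the constant families. A constant family has one extension whose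
values at the elements of the complement `S` are positive; so the field automorphisms permute these
canonical extensions as they permute the `θ`. If a field automorphism fixes the first kind of character
then it shifts the family `(θ_s)` by an element `t` of `S`; if it acts on `Irr_{p'}(G)` with an order
prime to `q` then `t = 1`. So the number `n(G)` of the characters fixed by a group `Γ` of such
automorphisms satisfies `q n(G ≀ S) + n(G) = n(G) ^ q + q c n(G)`, where `c` is the number of linear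
characters of `S` fixed by `Γ`, and the same holds for the normalizer of the Sylow subgroup `P ^ S`,
which is `N_G(P) ≀ S`. So if the two numbers differ by `q ^ a` times a number prime to `q`, `a ≥ 1`,
then those for the wreath products differ by `q ^ (a - 1)` times a number prime to `q`. The primes
which divide the orders of the actions of `Γ` for the wreath product are those for `G` and perhaps
some divisors of `q - 1`.
-/

set_option autoImplicit false

noncomputable section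

namespace Pool.Agent.Results.MP_1ae3da_al.CongruenceModQ

/-- `Irr_{p'}(G)`: the characters of the irreducible complex representations of `G` of degree prime
to `p`. -/
def IrrP (p : ℕ) (G : Type) [Group G] : Set (G → ℂ) :=
  {χ | (∃ (V : Type) (_ : AddCommGroup V) (_ : Module ℂ V) (_ : FiniteDimensional ℂ V)
    (ρ : Representation ℂ G V), ρ.IsIrreducible ∧ χ = ρ.character) ∧
    ∃ n : ℕ, (n : ℂ) = χ 1 ∧ ¬ p ∣ n}

/-- The normalizer `N_G(P)` of a Sylow subgroup `P`. -/
abbrev N {p : ℕ} {G : Type} [Group G] (P : Sylow p G) : Type :=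
  Subgroup.normalizer ((P : Subgroup G) : Set G)

/-- Navarro's group `𝓗`: the automorphisms `σ` of `ℂ` such that for every `m` prime to `p` there is an
`e ≥ 0` with `σ ξ = ξ ^ (p ^ e)` for all `m`-th roots of unity `ξ`. -/
def calH (p : ℕ) : Set (ℂ ≃+* ℂ) :=
  {σ | ∀ m : ℕ, ¬ p ∣ m → ∃ e : ℕ, ∀ ξ : ℂ, ξ ^ m = 1 → σ ξ = ξ ^ p ^ e}

/-- The actions of `Γ` on `Irr_{p'}(G)` and on `Irr_{p'}(N_G(P))` are permutation isomorphic. -/
def McKay {p : ℕ} (Γ : Subgroup (ℂ ≃+* ℂ)) {G : Type} [Group G] (P : Sylow p G) : Prop :=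
  ∃ f : IrrP p G ≃ IrrP p (N P), ∀ σ ∈ Γ, ∀ χ ψ : IrrP p G,
    (∀ g, (ψ : G → ℂ) g = σ ((χ : G → ℂ) g)) → ∀ g, (f ψ : N P → ℂ) g = σ ((f χ : N P → ℂ) g)

/-- The number of the `χ ∈ Irr_{p'}(G)` fixed by all `σ ∈ Γ`. -/
def num (p : ℕ) (Γ : Subgroup (ℂ ≃+* ℂ)) (G : Type) [Group G] : ℕ :=
  Nat.card {χ : G → ℂ // χ ∈ IrrP p G ∧ ∀ σ ∈ Γ, ∀ g, σ (χ g) = χ g}

/-- For every `σ ∈ Γ` there is an exponent `m` with the property `E` such that `σ ^ m` fixes all
characters in `Irr_{p'}(G)`. -/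
def Acts (p : ℕ) (E : ℕ → Prop) (Γ : Subgroup (ℂ ≃+* ℂ)) (G : Type) [Group G] : Prop :=
  ∀ σ ∈ Γ, ∃ m : ℕ, E m ∧ ∀ χ ∈ IrrP p G, ∀ g, (σ ^ m) (χ g) = χ g

/-- The same for `Irr_{p'}(G)` and for `Irr_{p'}(N_G(P))`. -/
def ActsBoth {p : ℕ} (E : ℕ → Prop) (Γ : Subgroup (ℂ ≃+* ℂ)) {G : Type} [Group G]
    (P : Sylow p G) : Prop :=
  Acts p E Γ G ∧ Acts p E Γ (N P)

/-- The prime `q` does not divide the orders of the permutations of `Irr_{p'}(G)` and of
`Irr_{p'}(N_G(P))` given by the elements of `Γ`. -/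
def PrimeTo {p : ℕ} (q : ℕ) (Γ : Subgroup (ℂ ≃+* ℂ)) {G : Type} [Group G] (P : Sylow p G) : Prop :=
  ActsBoth (fun m => ¬ q ∣ m) Γ P

/-- `q` is the least element of `𝒬` with `PrimeTo q Γ P`. -/
def IsLeastPrimeTo (𝒬 : Set ℕ) {p : ℕ} (q : ℕ) (Γ : Subgroup (ℂ ≃+* ℂ)) {G : Type} [Group G]
    (P : Sylow p G) : Prop :=
  q ∈ 𝒬 ∧ PrimeTo q Γ P ∧ ∀ r ∈ 𝒬, r < q → ¬ PrimeTo r Γ P

/-- A class of groups, given by a predicate. -/
abbrev Cls : Type 1 := (G : Type) → [Group G] → Prop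

/-- The action of `S` on `G ^ S` by permutation of the factors. -/
def shift (G S : Type) [Group G] [Group S] : S →* MulAut (S → G) :=
  Pool.Agent.K3h3.MK.rAct G S

theorem shift_apply (G S : Type) [Group G] [Group S] (s : S) (g : S → G) (i : S) :
    shift G S s g i = g (s⁻¹ * i) := rfl

/-- The regular wreath product of `G` with `S`. -/
abbrev Wreath (G S : Type) [Group G] [Group S] : Type := (S → G) ⋊[shift G S] S

/-- The class `C` contains the regular wreath product of `G` with `S` for all finite `G` in `C`. -/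
def Closed (S : Type) [Group S] (C : Cls) : Prop :=
  ∀ (G : Type) [Group G] [Finite G], C G → C (Wreath G S)

section bridge

open Pool.Agent.U920.GQ Pool.Agent.Q259.BW Pool.Agent.K3h3.MK

theorem num_eq {p : ℕ} (Γ : Subgroup (ℂ ≃+* ℂ)) (H : Type) [Group H] :
    num p Γ H = nf p Γ H := rfl

variable {p : ℕ} [hp : Fact p.Prime]

theorem mckay_iff (Γ : Subgroup (ℂ ≃+* ℂ)) {G : Type} [Group G] [Finite G] (P : Sylow p G) :
    McKay Γ P ↔ ∀ Δ ≤ Γ, num p Δ G = num p Δ (N P) := by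
  have h0 : McKay Γ P ↔ EquivBij (Γ : Set (ℂ ≃+* ℂ)) (Pool.Agent.U152.IN.XP p G)
      (Pool.Agent.U152.IN.XP p (N P)) := by
    constructor
    · rintro ⟨f, h1⟩
      refine ⟨f, fun σ hσ χ => ?_⟩
      have h3 := Pool.Agent.U152.IN.stable_XP (Γ : Set (ℂ ≃+* ℂ)) σ hσ _ χ.2
      exact ⟨h3, funext (h1 σ hσ χ ⟨_, h3⟩ fun _ => rfl)⟩
    · rintro ⟨f, h1⟩
      refine ⟨f, fun σ hσ χ ψ h g => ?_⟩
      obtain ⟨h3, h4⟩ := h1 σ hσ χ
      have h5 : ψ = ⟨fun g => σ ((χ : G → ℂ) g), h3⟩ := Subtype.ext (funext h)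
      rw [h5]
      exact congrFun h4 g
  rw [h0]
  constructor
  · intro h Δ hΔ
    exact num_of_bij h hΔ
  · intro h
    exact bij_of_num (XP_finite G) (XP_finite (N P)) (Pool.Agent.U152.IN.stable_XP _)
      (Pool.Agent.U152.IN.stable_XP _) h

theorem mod_iff {q a b : ℕ} : a ≡ b [MOD q] ↔ (q : ℤ) ∣ (a : ℤ) - b := by
  rw [Nat.ModEq.comm, Nat.modEq_iff_dvd]

/-- the criterion for a tower -/
theorem tower {q : ℕ} (hq : q.Prime) (hqp : q ≠ p) {S : Type} [CommGroup S] [Finite S]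
    (hS : Nat.card S = q) {E : ℕ → Prop} (hE1 : ∀ m, E m → ¬ q ∣ m)
    (hE2 : ∀ m, E m → E (m * (q - 1))) (W : ℕ → Type) [∀ j, Group (W j)] [∀ j, Finite (W j)]
    (e : ∀ j, Nonempty (W (j + 1) ≃* Wreath (W j) S)) (P : Sylow p (W 0))
    (Γ : Subgroup (ℂ ≃+* ℂ)) (hΓ : ActsBoth E Γ P) :
    (∀ a : ℕ, (q : ℤ) ^ a ∣ (num p Γ (W 0) : ℤ) - num p Γ (N P) ↔
      ∀ j < a, ∀ Q : Sylow p (W j), num p Γ (W j) ≡ num p Γ (N Q) [MOD q]) ∧
    (num p Γ (W 0) = num p Γ (N P) → ∀ j, ∀ Q : Sylow p (W j), num p Γ (W j) = num p Γ (N Q)) ∧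
    (∀ j, ∀ Q : Sylow p (W j), ActsBoth E Γ Q) := by
  subst hS
  have hpS : ¬ p ∣ Nat.card S := fun h => hqp ((Nat.prime_dvd_prime_iff_eq hp.out hq).mp h).symm
  let B : ℕ → Type := fun j => N (default : Sylow p (W j))
  have eB : ∀ j, Nonempty (B (j + 1) ≃* Wr (B j) S) := by
    intro j
    obtain ⟨e1⟩ := e j
    exact NN_step hpS e1 default default
  have hN : ∀ j, ∀ Q : Sylow p (W j), Nonempty (N Q ≃* B j) := fun j Q =>
    Pool.Agent.Q90.WR.norm_equiv Q default
  have hnum : ∀ j, ∀ Q : Sylow p (W j), ∀ Γ : Subgroup (ℂ ≃+* ℂ), num p Γ (N Q) = nf p Γ (B j) := by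
    intro j Q Γ
    obtain ⟨e1⟩ := hN j Q
    exact nf_congr e1 Γ
  have hB0 : Act p E Γ (B 0) := by
    obtain ⟨e1⟩ := hN 0 P
    exact act_congr e1.symm hΓ.2
  obtain ⟨h1, h2⟩ := tower_levels hq hpS hE1 hE2 e eB hΓ.1 hB0
  refine ⟨fun a => ?_, fun h j Q => ?_, fun j Q => ⟨act_tower hq hpS hE2 e hΓ.1 j, ?_⟩⟩
  · rw [hnum 0 P, num_eq, h1 a]
    refine forall₂_congr fun j _ => ?_
    constructor
    · intro h Q
      rw [mod_iff, hnum j Q]
      exact h
    · intro h
      have := h default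
      rw [mod_iff, hnum j default] at this
      exact this
  · rw [hnum j Q]
    rw [hnum 0 P] at h
    exact h2 h j
  · obtain ⟨e1⟩ := hN j Q
    exact act_congr e1 (act_tower hq hpS hE2 eB hB0 j)

/-- descent in a tower -/
theorem down {S : Type} [CommGroup S] [Finite S] (hpS : ¬ p ∣ Nat.card S) {E : ℕ → Prop}
    (W : ℕ → Type) [∀ j, Group (W j)] [∀ j, Finite (W j)]
    (e : ∀ j, Nonempty (W (j + 1) ≃* Wreath (W j) S)) (P : Sylow p (W 0))
    (Γ : Subgroup (ℂ ≃+* ℂ)) (j : ℕ) (Q : Sylow p (W j)) (h : ActsBoth E Γ Q) :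
    ActsBoth E Γ P := by
  let B : ℕ → Type := fun j => N (default : Sylow p (W j))
  have eB : ∀ j, Nonempty (B (j + 1) ≃* Wr (B j) S) := by
    intro j
    obtain ⟨e1⟩ := e j
    exact NN_step hpS e1 default default
  have hN : ∀ j, ∀ Q : Sylow p (W j), Nonempty (N Q ≃* B j) := fun j Q =>
    Pool.Agent.Q90.WR.norm_equiv Q default
  obtain ⟨e1⟩ := hN j Q
  obtain ⟨e2⟩ := hN 0 P
  exact ⟨act_tower_down e j h.1, act_congr e2 (act_tower_down eB j (act_congr e1.symm h.2))⟩

/-- the iterated wreath products -/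
def It (S : Type) [Group S] (G : Type) [i : Group G] : ℕ → Σ K : Type, Group K
  | 0 => ⟨G, i⟩
  | j + 1 => letI := (It S G j).2; ⟨Wreath (It S G j).1 S, inferInstance⟩

instance (S : Type) [Group S] (G : Type) [Group G] (j : ℕ) : Group (It S G j).1 := (It S G j).2

theorem it_finite (S : Type) [Group S] [Finite S] (G : Type) [Group G] [Finite G] :
    ∀ j, Finite (It S G j).1 := by
  intro j
  induction j with
  | zero => exact inferInstanceAs (Finite G)
  | succ j ih => exact inferInstanceAs (Finite (Wreath (It S G j).1 S))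

theorem it_cls {S : Type} [Group S] [Finite S] {C : Cls} (hC : Closed S C) {G : Type} [Group G]
    [Finite G] (hG : C G) : ∀ j, C (It S G j).1 := by
  intro j
  induction j with
  | zero => exact hG
  | succ j ih =>
    have := it_finite S G j
    exact hC (It S G j).1 ih

theorem it_equiv (S : Type) [Group S] (G : Type) [Group G] (j : ℕ) :
    Nonempty ((It S G (j + 1)).1 ≃* Wreath (It S G j).1 S) := ⟨MulEquiv.refl _⟩

theorem eq_of_dvd {q : ℕ} (hq : q.Prime) {a b : ℕ} (h : ∀ t : ℕ, (q : ℤ) ^ t ∣ (a : ℤ) - b) :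
    a = b := by
  by_contra hne
  have h1 : (a : ℤ) - b ≠ 0 := by omega
  have h2 := Int.natAbs_dvd_natAbs.mpr (h ((a : ℤ) - b).natAbs)
  rw [Int.natAbs_pow, Int.natAbs_natCast] at h2
  have h3 := Nat.le_of_dvd (Int.natAbs_pos.mpr h1) h2
  have h4 := Nat.lt_pow_self hq.one_lt (n := ((a : ℤ) - b).natAbs)
  omega

/-- there is a least prime -/
theorem exists_least {𝒬 : Set ℕ} (h𝒬 : 𝒬.Infinite) (hpr : ∀ q ∈ 𝒬, q.Prime)
    (Γ : Subgroup (ℂ ≃+* ℂ)) {G : Type} [Group G] [Finite G] (P : Sylow p G) :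
    ∃ q, IsLeastPrimeTo 𝒬 q Γ P := by
  classical
  obtain ⟨q, h1, h2⟩ := h𝒬.exists_gt
    (max (Nat.card (Pool.Agent.U152.IN.XP p G)) (Nat.card (Pool.Agent.U152.IN.XP p (N P))))
  have h3 : ∃ q, q ∈ 𝒬 ∧ PrimeTo q Γ P :=
    ⟨q, h1, act_large Γ G (hpr q h1) (lt_of_le_of_lt (le_max_left _ _) h2),
      act_large Γ (N P) (hpr q h1) (lt_of_le_of_lt (le_max_right _ _) h2)⟩
  refine ⟨Nat.find h3, (Nat.find_spec h3).1, (Nat.find_spec h3).2, fun r hr hlt hcon => ?_⟩
  exact Nat.find_min h3 hlt ⟨hr, hcon⟩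

/-- exponents prime to `q` -/
theorem expo {q : ℕ} (hq : q.Prime) (m : ℕ) (h : ¬ q ∣ m) : ¬ q ∣ m * (q - 1) := by
  rw [hq.dvd_mul]
  rintro (h1 | h1)
  · exact h h1
  · have := Nat.le_of_dvd (by have := hq.two_le; omega) h1
    have := hq.two_le
    omega

/-- the main argument for a fixed group of automorphisms -/
theorem fixed {𝒬 : Set ℕ} (h𝒬 : 𝒬.Infinite) (hpr : ∀ q ∈ 𝒬, q.Prime ∧ q ≠ p) {C : Cls}
    (hC : ∀ (S : Type) [CommGroup S] [Finite S], Nat.card S ∈ 𝒬 → Closed S C)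
    (Γ : Subgroup (ℂ ≃+* ℂ))
    (h : ∀ (G : Type) [Group G] [Finite G], C G → ∀ (P : Sylow p G) (q : ℕ),
      IsLeastPrimeTo 𝒬 q Γ P → num p Γ G ≡ num p Γ (N P) [MOD q])
    (G : Type) [Group G] [Finite G] (hG : C G) (P : Sylow p G) : num p Γ G = num p Γ (N P) := by
  obtain ⟨q, h1, h2, h3⟩ := exists_least h𝒬 (fun q hq => (hpr q hq).1) Γ P
  obtain ⟨hq, hqp⟩ := hpr q h1
  have : NeZero q := ⟨hq.ne_zero⟩
  have hS : Nat.card (Multiplicative (ZMod q)) = q := Nat.card_zmod q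
  have hpS : ¬ p ∣ Nat.card (Multiplicative (ZMod q)) := by
    rw [hS]
    exact fun h => hqp ((Nat.prime_dvd_prime_iff_eq hp.out hq).mp h).symm
  have hfin := it_finite (Multiplicative (ZMod q)) G
  obtain ⟨a1, -, a3⟩ := tower hq hqp hS (E := fun m => ¬ q ∣ m) (fun _ h => h) (expo hq)
    (fun j => (It (Multiplicative (ZMod q)) G j).1) (it_equiv _ G) P Γ h2
  refine eq_of_dvd hq fun t => (a1 t).mpr fun j _ Q => ?_
  refine h _ (it_cls (hC _ (by rw [hS]; exact h1)) hG j) Q q ⟨h1, a3 j Q, fun r hr hrq hcon => ?_⟩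
  exact h3 r hr hrq (down hpS (fun j => (It (Multiplicative (ZMod q)) G j).1) (it_equiv _ G) P Γ j
    Q hcon)

end bridge

/-- **The McKay–Galois conjecture: one congruence for each group of field automorphisms decides.** Let
`p` be a prime.

(1) Let `q ≠ p` be a prime, `S` a group of order `q` and `E` a set of exponents prime to `q` such that
`(q - 1) m` is in `E` for all `m` in `E`, for example the numbers prime to `q`. Let `C` be a class of
finite groups closed under `G ↦ G ≀ S` (for example all finite groups), and `H` a set of field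
automorphisms (for example Navarro's group `𝓗`). The following are equivalent. (a) For all `G ∈ C`, all
Sylow `p`-subgroups `P` and all groups `Γ ⊆ H` such that every `σ ∈ Γ` has a power with exponent in `E`
fixing all characters in `Irr_{p'}(G)` and one fixing those in `Irr_{p'}(N_G(P))`, the actions of `Γ` on
`Irr_{p'}(G)` and on `Irr_{p'}(N_G(P))` are permutation isomorphic. (b) For all these `G`, `P`, `Γ` the
numbers of the fixed points of `Γ` on the two sets are congruent modulo `q`.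

(2) For one group: let `q`, `S`, `E` be as in (1), let `W 0, W 1, …` be finite groups such that
`W (j + 1)` is isomorphic to `W j ≀ S` for all `j`, let `P` be a Sylow `p`-subgroup of `W 0` and `Γ` as
in (1). Then `q ^ a` divides the difference of the numbers of fixed points for `W 0` if and only if the
numbers are congruent modulo `q` for `W j`, `j < a`; and the two actions of `Γ` are isomorphic if and
only if the numbers are congruent modulo `q` for all subgroups `Δ` of `Γ` and all `W j` with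
`q ^ j ≤ |W 0|`.

(3) Let `𝒬` be an infinite set of primes different from `p` (for example all of them) and let `C` be a
class of finite groups closed under regular wreath products with the groups of order `q`, `q ∈ 𝒬`. For
a group `Γ` of field automorphisms, the numbers of fixed points of `Γ` are equal for all groups in `C`,
if and only if they are congruent modulo `q` for all groups in `C`, where `q` is the least prime in `𝒬`
which divides none of the orders of the permutations of the two sets given by the elements of `Γ`. For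
a group `H` of field automorphisms, for example `𝓗`, the actions of `H` are permutation isomorphic for
all groups in `C` if and only if these congruences hold for all groups in `C` and all subgroups `Γ` of
`H`.

(4) `𝓗` is a group. -/
theorem result (p : ℕ) [Fact p.Prime] :
    -- (1) and (2)
    (∀ q : ℕ, q.Prime → q ≠ p → ∀ (S : Type) [CommGroup S] [Finite S], Nat.card S = q →
      ∀ E : ℕ → Prop, (∀ m, E m → ¬ q ∣ m) → (∀ m, E m → E (m * (q - 1))) →
      (∀ C : Cls, Closed S C → ∀ H : Set (ℂ ≃+* ℂ),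
        ((∀ (G : Type) [Group G] [Finite G], C G → ∀ (P : Sylow p G) (Γ : Subgroup (ℂ ≃+* ℂ)),
          (Γ : Set (ℂ ≃+* ℂ)) ⊆ H → ActsBoth E Γ P → McKay Γ P) ↔
        ∀ (G : Type) [Group G] [Finite G], C G → ∀ (P : Sylow p G) (Γ : Subgroup (ℂ ≃+* ℂ)),
          (Γ : Set (ℂ ≃+* ℂ)) ⊆ H → ActsBoth E Γ P →
          num p Γ G ≡ num p Γ (N P) [MOD q])) ∧
      (∀ (W : ℕ → Type) [∀ j, Group (W j)] [∀ j, Finite (W j)],
        (∀ j, Nonempty (W (j + 1) ≃* Wreath (W j) S)) → ∀ (P : Sylow p (W 0))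
        (Γ : Subgroup (ℂ ≃+* ℂ)), ActsBoth E Γ P →
        (∀ a : ℕ, (q : ℤ) ^ a ∣ (num p Γ (W 0) : ℤ) - num p Γ (N P) ↔
          ∀ j < a, ∀ Q : Sylow p (W j), num p Γ (W j) ≡ num p Γ (N Q) [MOD q]) ∧
        (McKay Γ P ↔ ∀ Δ ≤ Γ, ∀ j, q ^ j ≤ Nat.card (W 0) → ∀ Q : Sylow p (W j),
          num p Δ (W j) ≡ num p Δ (N Q) [MOD q]))) ∧
    -- (3)
    (∀ 𝒬 : Set ℕ, 𝒬.Infinite → (∀ q ∈ 𝒬, q.Prime ∧ q ≠ p) → ∀ C : Cls,
      (∀ (S : Type) [CommGroup S] [Finite S], Nat.card S ∈ 𝒬 → Closed S C) →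
      (∀ Γ : Subgroup (ℂ ≃+* ℂ),
        ((∀ (G : Type) [Group G] [Finite G], C G → ∀ P : Sylow p G,
          num p Γ G = num p Γ (N P)) ↔
        ∀ (G : Type) [Group G] [Finite G], C G → ∀ (P : Sylow p G) (q : ℕ),
          IsLeastPrimeTo 𝒬 q Γ P → num p Γ G ≡ num p Γ (N P) [MOD q])) ∧
      (∀ H : Subgroup (ℂ ≃+* ℂ),
        ((∀ (G : Type) [Group G] [Finite G], C G → ∀ P : Sylow p G, McKay H P) ↔
        ∀ (G : Type) [Group G] [Finite G], C G → ∀ (P : Sylow p G), ∀ Γ ≤ H, ∀ q : ℕ,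
          IsLeastPrimeTo 𝒬 q Γ P → num p Γ G ≡ num p Γ (N P) [MOD q]))) ∧
    -- (4)
    ∃ K : Subgroup (ℂ ≃+* ℂ), (K : Set (ℂ ≃+* ℂ)) = calH p := by
  have mono : ∀ {E : ℕ → Prop} {Δ Γ : Subgroup (ℂ ≃+* ℂ)} {G : Type} [Group G] {P : Sylow p G},
      Δ ≤ Γ → ActsBoth E Γ P → ActsBoth E Δ P := fun hΔ h =>
    ⟨fun σ hσ => h.1 σ (hΔ hσ), fun σ hσ => h.2 σ (hΔ hσ)⟩
  refine ⟨fun q hq hqp S _ _ hS E hE1 hE2 => ⟨fun C hC H => ?_, fun W _ _ e P Γ hΓ => ⟨?_, ?_⟩⟩,
    fun 𝒬 h𝒬 hpr C hC => ⟨fun Γ => ?_, fun H => ?_⟩, ?_⟩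
  · constructor
    · intro h G _ _ hG P Γ hΓ hE
      rw [(mckay_iff Γ P).mp (h G hG P Γ hΓ hE) Γ le_rfl]
    · intro h G _ _ hG P Γ hΓ hE
      rw [mckay_iff]
      intro Δ hΔ
      have hfin := it_finite S G
      obtain ⟨a1, -, a3⟩ := tower hq hqp hS hE1 hE2 (fun j => (It S G j).1) (it_equiv S G) P Δ
        (mono hΔ hE)
      exact eq_of_dvd hq fun t => (a1 t).mpr fun j _ Q =>
        h _ (it_cls hC hG j) Q Δ (fun σ hσ => hΓ (hΔ hσ)) (a3 j Q)
  · exact (tower hq hqp hS hE1 hE2 W e P Γ hΓ).1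
  · rw [mckay_iff]
    refine forall₂_congr fun Δ hΔ => ?_
    obtain ⟨a1, a2, -⟩ := tower hq hqp hS hE1 hE2 W e P Δ (mono hΔ hΓ)
    constructor
    · intro h j _ Q
      rw [a2 h j Q]
    · intro h
      have h1 := (a1 (Nat.log q (Nat.card (W 0)) + 1)).mpr fun j hj Q =>
        h j (Nat.pow_le_of_le_log Nat.card_pos.ne' (Nat.lt_succ_iff.mp hj)) Q
      by_contra hne
      have h2 : (num p Δ (W 0) : ℤ) - num p Δ (N P) ≠ 0 := by omega
      have h3 := Int.natAbs_dvd_natAbs.mpr h1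
      rw [Int.natAbs_pow, Int.natAbs_natCast] at h3
      have h4 := Nat.le_of_dvd (Int.natAbs_pos.mpr h2) h3
      have h5 : num p Δ (W 0) ≤ Nat.card (W 0) := Pool.Agent.U920.GQ.nf_le Δ (W 0)
      have h6 : num p Δ (N P) ≤ Nat.card (N P) := Pool.Agent.U920.GQ.nf_le Δ (N P)
      have h7 : Nat.card (N P) ≤ Nat.card (W 0) :=
        Nat.card_le_card_of_injective (Subtype.val : N P → W 0) Subtype.val_injective
      have h8 := Nat.lt_pow_succ_log_self hq.one_lt (Nat.card (W 0))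
      rw [Nat.succ_eq_add_one] at h8
      omega
  · constructor
    · intro h G _ _ hG P q _
      rw [h G hG P]
    · exact fixed h𝒬 hpr hC Γ
  · constructor
    · intro h G _ _ hG P Γ hΓ q _
      rw [(mckay_iff H P).mp (h G hG P) Γ hΓ]
    · intro h G _ _ hG P
      rw [mckay_iff]
      intro Γ hΓ
      exact fixed h𝒬 hpr hC Γ (fun G _ _ hG P q hq => h G hG P Γ hΓ q hq) G hG P
  · refine ⟨{ carrier := calH p, one_mem' := ?_, mul_mem' := ?_, inv_mem' := ?_ }, rfl⟩
    · intro a b ha hb m hm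
      obtain ⟨e, he⟩ := ha m hm
      obtain ⟨f, hf⟩ := hb m hm
      refine ⟨f + e, fun ξ hξ => ?_⟩
      rw [RingAut.mul_apply, hf ξ hξ, map_pow, he ξ hξ, ← pow_mul, pow_add, mul_comm]
    · intro m hm
      exact ⟨0, fun ξ hξ => by rw [pow_zero, pow_one]; rfl⟩
    · intro a ha m hm
      obtain ⟨e, he⟩ := ha m hm
      rcases Nat.eq_zero_or_pos m with rfl | hm0
      · exact absurd (dvd_zero p) hm
      have hcop : Nat.Coprime (p ^ e) m :=
        Nat.Coprime.pow_left _ ((Nat.Prime.coprime_iff_not_dvd Fact.out).mpr hm)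
      have hφ : 1 ≤ Nat.totient m := Nat.totient_pos.mpr hm0
      refine ⟨e * (Nat.totient m - 1), fun ξ hξ => ?_⟩
      have h1 : (a⁻¹ ξ) ^ m = 1 := by rw [← map_pow, hξ, map_one]
      have h2 : ξ = (a⁻¹ ξ) ^ p ^ e := by
        rw [← he _ h1]
        exact (RingEquiv.apply_symm_apply a ξ).symm
      have h3 : (p ^ e) ^ Nat.totient m ≡ 1 [MOD m] := Nat.ModEq.pow_totient hcop
      have h4 : (a⁻¹ ξ) ^ ((p ^ e) ^ Nat.totient m) = a⁻¹ ξ := by
        have h5 := pow_eq_pow_of_modEq h3 h1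
        rw [h5, pow_one]
      conv_rhs => rw [h2]
      rw [← pow_mul, ← pow_add, show e + e * (Nat.totient m - 1) = e * Nat.totient m by
        obtain ⟨t, ht⟩ := Nat.exists_eq_add_of_le hφ
        rw [ht, Nat.add_sub_cancel_left]
        ring, pow_mul p e, h4]

end Pool.Agent.Results.MP_1ae3da_al.CongruenceModQ
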