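import Pool.Agent.U573.ON.Gen

/-!
# The McKay–Galois conjecture for the automorphisms which fix the roots of unity of `p`-power order,
and for wild inertia: numbers of orbits decide

Let `G` be a finite group of order `n = p ^ a m`, `p` not dividing `m`, let `P` be a Sylow `p`-subgroup. We
consider two parts of Navarro's group `𝓗`: the automorphisms `𝓕_n` fixing the roots of unity of order
`p ^ a`, and, for odd `p`, the automorphisms `𝓦_n` fixing those of order `m` and `p` (wild inertia). Two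
characters in `Irr_{p'}(G)` are in the same orbit of `𝓕_n` if and only if they are constituents of one
irreducible representation over the field `ℚ_p(ζ)`, `ζ` of order `p ^ a`, and similarly for `𝓦_n`.

The actions of `𝓕_n` on `Irr_{p'}(G)` and on `Irr_{p'}(N_G(P))` are permutation isomorphic if and only
if the numbers of orbits for `G × C_r` and for the normalizers of its Sylow `p`-subgroups are equal, for all
cyclic groups `C_r` of order prime to `p`; and the same holds for `𝓦_n` and cyclic `p`-groups. So for classes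
of finite groups closed under direct products with these cyclic groups the actions are isomorphic
for all groups in the class if and only if the numbers of orbits are the same for all groups in the
class.

Proof. Let `τ` act as `ξ ↦ ξ ^ p` on the roots of unity of order prime to `p`, trivially on those of
`p`-power order, and let `δ_j` be the difference of the numbers of characters fixed by `τ ^ j` for `G` and
`N_G(P)`. The lemma of Burnside, for a common period `M` and `r ∣ p ^ M - 1`, gives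
`∑_(j < M) δ_j gcd(r, p ^ j - 1) = 0`. Since `gcd(r, s)` is the sum of `φ(d)` over the common divisors, the sums
of the `δ_j` with `r ∣ p ^ j - 1` vanish; for `r = p ^ f - 1` these are the `j` divisible by `f`. As `δ_j` only depends
on `gcd(j, M)`, all `δ_j` vanish. For wild inertia `p` is replaced by `1 + p`, and `r` is a power of `p`.
-/

set_option autoImplicit false

noncomputable section

namespace Pool.Agent.Results.MP_1ae3da_al.OrbitNumbersDecide

/-- `Irr_{p'}(G)`: the characters of the irreducible complex representations of `G` of degree prime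
to `p`. -/
def IrrP (p : ℕ) (G : Type) [Group G] : Set (G → ℂ) :=
  {χ | (∃ (V : Type) (_ : AddCommGroup V) (_ : Module ℂ V) (_ : FiniteDimensional ℂ V)
    (ρ : Representation ℂ G V), ρ.IsIrreducible ∧ χ = ρ.character) ∧
    ∃ n : ℕ, (n : ℂ) = χ 1 ∧ ¬ p ∣ n}

/-- The normalizer `N_G(P)` of a Sylow subgroup `P`. -/
abbrev N {p : ℕ} {G : Type} [Group G] (P : Sylow p G) : Type :=
  Subgroup.normalizer ((P : Subgroup G) : Set G)

/-- `𝓕_n`, `n = p ^ a m` with `m` prime to `p`: the automorphisms `σ` of `ℂ` which fix the roots of unity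
of order dividing `p ^ a` and for which there is an `e ≥ 0` with `σ ξ = ξ ^ (p ^ e)` for all `ξ` with
`ξ ^ m = 1`. -/
def calF (p n : ℕ) : Set (ℂ ≃+* ℂ) :=
  {σ | (∃ e : ℕ, ∀ ξ : ℂ, ξ ^ (n / p ^ n.factorization p) = 1 → σ ξ = ξ ^ p ^ e) ∧
    ∀ ξ : ℂ, ξ ^ p ^ n.factorization p = 1 → σ ξ = ξ}

/-- `𝓦_n`, `n = p ^ a m` with `m` prime to `p`: the automorphisms of `ℂ` which fix the `m`-th and the
`p`-th roots of unity. -/
def calW (p n : ℕ) : Set (ℂ ≃+* ℂ) :=
  {σ | (∀ ξ : ℂ, ξ ^ (n / p ^ n.factorization p) = 1 → σ ξ = ξ) ∧ ∀ ξ : ℂ, ξ ^ p = 1 → σ ξ = ξ}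

/-- The number of orbits of `Γ` on `Irr_{p'}(L)`. -/
def numOrb (p : ℕ) (Γ : Set (ℂ ≃+* ℂ)) (L : Type) [Group L] : ℕ :=
  Nat.card (Quot fun χ ψ : IrrP p L => ∃ σ ∈ Γ, ∀ g, (ψ : L → ℂ) g = σ ((χ : L → ℂ) g))

/-- The numbers of orbits of `Γ` on `Irr_{p'}(G)` and on `Irr_{p'}(N_G(P))` are equal. -/
def SameNumber {p : ℕ} {G : Type} [Group G] (Γ : Set (ℂ ≃+* ℂ)) (P : Sylow p G) : Prop :=
  numOrb p Γ G = numOrb p Γ (N P)

/-- The actions of `Γ` on `Irr_{p'}(G)` and on `Irr_{p'}(N_G(P))` are permutation isomorphic. -/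
def SameAction {p : ℕ} {G : Type} [Group G] (Γ : Set (ℂ ≃+* ℂ)) (P : Sylow p G) : Prop :=
  ∃ f : IrrP p G ≃ IrrP p (N P), ∀ σ ∈ Γ, ∀ χ ψ : IrrP p G,
    (∀ g, (ψ : G → ℂ) g = σ ((χ : G → ℂ) g)) → ∀ g, (f ψ : N P → ℂ) g = σ ((f χ : N P → ℂ) g)

/-- The cyclic group of order `r`. -/
abbrev Cyc (r : ℕ) : Type := Multiplicative (ZMod r)

/-- A class of groups, given by a predicate. -/
abbrev Cls : Type 1 := (G : Type) → [Group G] → Prop

section bridge

open Pool.Agent.U573.ON Pool.Agent.U152.IN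

variable {p : ℕ} [hp : Fact p.Prime]

theorem card_prod_cyc (G : Type) (r : ℕ) : Nat.card (G × Cyc r) = Nat.card G * r := by
  rw [Nat.card_prod]
  congr 1
  exact Nat.card_zmod r

/-- equal numbers of fixed characters of the powers of one automorphism -/
theorem action_of_fix {G : Type} [Group G] [Finite G] (P : Sylow p G) {Γ : Set (ℂ ≃+* ℂ)}
    {τ : ℂ ≃+* ℂ} (key : ∀ j, fx p G τ j = fx p (N P) τ j)
    (hΓ : ∀ σ ∈ Γ, ∃ j : ℕ, ∀ ξ : ℂ, ξ ^ Nat.card G = 1 → σ ξ = (τ ^ j) ξ) : SameAction Γ P := by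
  have hn : 0 < Nat.card G := Nat.card_pos
  have hN : Nat.card (N P) ∣ Nat.card G := Subgroup.card_subgroup_dvd_card _
  obtain ⟨f, hf⟩ := bij_of_fix key
  refine ⟨f, fun σ hσ χ ψ hψ g => ?_⟩
  obtain ⟨j, hj⟩ := hΓ σ hσ
  obtain ⟨k1, k2⟩ := hf (τ ^ j) (Subgroup.npow_mem_zpowers τ j) χ
  have k3 : (ψ : G → ℂ) = fun g => (τ ^ j) ((χ : G → ℂ) g) := by
    funext g
    rw [hψ g]
    exact agree χ.2.1 hn dvd_rfl hj g
  have k4 : ∀ ψ' : XP p G, (ψ' : G → ℂ) = (fun g => (τ ^ j) ((χ : G → ℂ) g)) →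
      ((f ψ' : XP p (N P)) : N P → ℂ) g = (τ ^ j) (((f χ : XP p (N P)) : N P → ℂ) g) := by
    intro ψ' h'
    have h3 : ψ' = ⟨fun g => (τ ^ j) ((χ : G → ℂ) g), k1⟩ := Subtype.ext h'
    rw [h3]
    exact congrFun k2 g
  exact (k4 ψ k3).trans (agree (f χ).2.1 hn hN hj g).symm

/-- the numbers of orbits for the normalizer of a Sylow subgroup of `G × C_r` -/
theorem number_norm {G : Type} [Group G] [Finite G] (P : Sylow p G) {Γ : Set (ℂ ≃+* ℂ)} {r : ℕ}
    (hr : 0 < r) (Q : Sylow p (G × Cyc r)) : numOrb p Γ (N Q) = numOrb p Γ (N P × Cyc r) := by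
  have _i : NeZero r := ⟨hr.ne'⟩
  obtain ⟨e⟩ := norm_cyc P r Q
  exact orb_of_equiv (p := p) e (MulEquiv.refl (N P × Cyc r)) (Equiv.refl _) fun _ _ _ => rfl

theorem number_of_action {G : Type} [Group G] [Finite G] (P : Sylow p G) {Γ Γ' : Set (ℂ ≃+* ℂ)}
    (h : SameAction Γ P) (hΓ : Γ' ⊆ Γ) {r : ℕ} (hr : 0 < r) (Q : Sylow p (G × Cyc r)) :
    SameNumber Γ' Q := by
  have _i : NeZero r := ⟨hr.ne'⟩
  obtain ⟨f, hf⟩ := h
  obtain ⟨e⟩ := norm_cyc P r Q
  exact orb_of_equiv (p := p) (Γ := Γ') (MulEquiv.refl (G × Cyc r)) e f fun σ hσ χ =>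
    Subtype.ext (funext fun g => hf σ (hΓ hσ) χ (perm G σ χ) (fun _ => rfl) g)

theorem number_one {G : Type} [Group G] [Finite G] (P : Sylow p G) {Γ : Set (ℂ ≃+* ℂ)}
    (h : SameAction Γ P) : SameNumber Γ P := by
  obtain ⟨f, hf⟩ := h
  unfold SameNumber numOrb
  refine Nat.card_congr (Quot.congr f ?_)
  intro χ ψ
  constructor
  · rintro ⟨σ, hσ, h⟩
    exact ⟨σ, hσ, hf σ hσ χ ψ h⟩
  · rintro ⟨σ, hσ, h⟩
    refine ⟨σ, hσ, fun g => ?_⟩
    have h1 : f (perm G σ χ) = f ψ := by
      apply Subtype.ext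
      funext x
      rw [h x]
      exact hf σ hσ χ (perm G σ χ) (fun _ => rfl) x
    rw [← f.injective h1]
    rfl

theorem action_F {G : Type} [Group G] [Finite G] (P : Sylow p G)
    (H : ∀ r, 0 < r → ¬ p ∣ r → ∃ Q : Sylow p (G × Cyc r),
      SameNumber (calF p (Nat.card (G × Cyc r))) Q) : SameAction (calF p (Nat.card G)) P := by
  have hn : 0 < Nat.card G := Nat.card_pos
  have hN : Nat.card (N P) ∣ Nat.card G := Subgroup.card_subgroup_dvd_card _
  obtain ⟨τ, h1, h2⟩ := exists_fro (p := p) (Nat.card G) hn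
  refine action_of_fix P (τ := τ) (fix_eq (p := p) (K := G) (K' := N P) hn dvd_rfl hN h1 h2 ?_)
    fun σ hσ => fro_agree (p := p) hn h1 h2 hσ
  intro r hr hpr
  obtain ⟨Q, hQ⟩ := H r hr hpr
  unfold SameNumber at hQ
  rw [number_norm P hr, card_prod_cyc] at hQ
  exact hQ

theorem action_W (hp2 : p ≠ 2) {G : Type} [Group G] [Finite G] (P : Sylow p G)
    (H : ∀ b, ∃ Q : Sylow p (G × Cyc (p ^ b)),
      SameNumber (calW p (Nat.card (G × Cyc (p ^ b)))) Q) :
    SameAction (calW p (Nat.card G)) P := by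
  have hn : 0 < Nat.card G := Nat.card_pos
  have hN : Nat.card (N P) ∣ Nat.card G := Subgroup.card_subgroup_dvd_card _
  obtain ⟨τ, h1, h2⟩ := exists_wl (p := p) (Nat.card G) hn
  refine action_of_fix P (τ := τ)
    (fixW_eq (p := p) hp2 (K := G) (K' := N P) hn dvd_rfl hN h1 h2 ?_)
    fun σ hσ => wl_agree' (p := p) hp2 hn h1 h2 hσ
  intro b
  obtain ⟨Q, hQ⟩ := H b
  unfold SameNumber at hQ
  rw [number_norm P (Nat.pow_pos hp.out.pos), card_prod_cyc] at hQ
  exact hQ

theorem calF_sub {n r : ℕ} (hn : 0 < n) (hr : 0 < r) (hpr : ¬ p ∣ r) :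
    calF p (n * r) ⊆ calF p n := by
  obtain ⟨f1, f2⟩ := fact_mul (p := p) hn hr hpr
  rintro σ ⟨⟨e, he⟩, h2⟩
  rw [f1] at h2
  rw [f2] at he
  exact ⟨⟨e, fun ξ hξ => he ξ (by rw [pow_mul, hξ, one_pow])⟩, h2⟩

theorem calW_sub {n : ℕ} (b : ℕ) (hn : 0 < n) : calW p (n * p ^ b) ⊆ calW p n := by
  obtain ⟨f1, f2⟩ := levelW (p := p) b hn
  rintro σ ⟨h1, h2⟩
  rw [f2] at h1
  exact ⟨h1, h2⟩

end bridge

/-- **(1), (2)** the automorphisms fixing the roots of unity of `p`-power order: one group, a class of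
groups; **(3), (4)** wild inertia for odd `p`: one group, a class of groups -/
theorem result (p : ℕ) [Fact p.Prime] :
    (∀ (G : Type) [Group G] [Finite G] (P : Sylow p G), (SameAction (calF p (Nat.card G)) P ↔
      ∀ r : ℕ, 0 < r → ¬ p ∣ r → ∀ Q : Sylow p (G × Cyc r),
        SameNumber (calF p (Nat.card (G × Cyc r))) Q)) ∧
    (∀ C : Cls, (∀ r : ℕ, 0 < r → ¬ p ∣ r → ∀ (G : Type) [Group G] [Finite G], C G → C (G × Cyc r)) →
      ((∀ (G : Type) [Group G] [Finite G], C G → ∀ P : Sylow p G,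
          SameAction (calF p (Nat.card G)) P) ↔
        ∀ (G : Type) [Group G] [Finite G], C G → ∀ P : Sylow p G,
          SameNumber (calF p (Nat.card G)) P)) ∧
    (p ≠ 2 → (∀ (G : Type) [Group G] [Finite G] (P : Sylow p G),
      (SameAction (calW p (Nat.card G)) P ↔ ∀ b : ℕ, ∀ Q : Sylow p (G × Cyc (p ^ b)),
        SameNumber (calW p (Nat.card (G × Cyc (p ^ b)))) Q)) ∧
      (∀ C : Cls, (∀ b : ℕ, ∀ (G : Type) [Group G] [Finite G], C G → C (G × Cyc (p ^ b))) →
        ((∀ (G : Type) [Group G] [Finite G], C G → ∀ P : Sylow p G,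
            SameAction (calW p (Nat.card G)) P) ↔
          ∀ (G : Type) [Group G] [Finite G], C G → ∀ P : Sylow p G,
            SameNumber (calW p (Nat.card G)) P))) := by
  have hp := (Fact.out : p.Prime)
  refine ⟨?_, ?_, fun hp2 => ⟨?_, ?_⟩⟩
  · intro G _ _ P
    constructor
    · intro h r hr hpr Q
      rw [card_prod_cyc]
      exact number_of_action P h (calF_sub Nat.card_pos hr hpr) hr Q
    · exact fun h => action_F P fun r hr hpr => ⟨default, h r hr hpr default⟩
  · intro C hC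
    constructor
    · intro h G _ _ hG P
      exact number_one P (h G hG P)
    · intro h G _ _ hG P
      refine action_F P fun r hr hpr => ⟨default, ?_⟩
      have _i : NeZero r := ⟨hr.ne'⟩
      exact h (G × Cyc r) (hC r hr hpr G hG) default
  · intro G _ _ P
    constructor
    · intro h b Q
      rw [card_prod_cyc]
      exact number_of_action P h (calW_sub b Nat.card_pos) (Nat.pow_pos hp.pos) Q
    · exact fun h => action_W hp2 P fun b => ⟨default, h b default⟩
  · intro C hC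
    constructor
    · intro h G _ _ hG P
      exact number_one P (h G hG P)
    · intro h G _ _ hG P
      refine action_W hp2 P fun b => ⟨default, ?_⟩
      have _i : NeZero (p ^ b) := ⟨(Nat.pow_pos hp.pos).ne'⟩
      exact h (G × Cyc (p ^ b)) (hC b G hG) default

end Pool.Agent.Results.MP_1ae3da_al.OrbitNumbersDecide
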