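import Pool.Agent.U573.ON.Hor

/-!
# The McKay–Galois conjecture: numbers of orbits of Navarro's group decide the action of the
automorphisms which fix the roots of unity of `p`-power order

Let `𝓗_n`, `n = p ^ a m` with `m` prime to `p`, be Navarro's group for groups of order `n`: the automorphisms
of `ℂ` acting on the `m`-th roots of unity as powers of the Frobenius, in an arbitrary way on the roots
of unity of `p`-power order, and let `𝓕_n` be the group of those which fix the roots of unity of order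
`p ^ a`. The orbits of `𝓗_n` on the irreducible characters of a group of order `n` correspond to its
irreducible representations over the field `ℚ_p`.

If, for a class of finite groups closed under direct products with cyclic groups, `𝓗_n` has the same number
of orbits on `Irr_{p'}(G)` and on `Irr_{p'}(N_G(P))`, then the actions of `𝓕_n` on these sets are
permutation isomorphic for all groups in the class.

Proof. Let `p` not divide `r` and let `ζ` be a root of unity of order `p ^ (a + 1)`. The orbits of `𝓗` on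
the characters of `G × C_k`, `k = p ^ (a + 1) r`, that do not come from the quotient `G × C_(k / p)`, are
those on the pairs of a character of `G × C_r` and a root of unity of order `p ^ (a + 1)`, and `𝓗` is
transitive on the latter; so their number is the number of the orbits of the stabiliser of `ζ` on the
characters of `G × C_r`, where it acts as `𝓕`. The numbers of these orbits, for all `r`, determine the
action of `𝓕` on `Irr_{p'}(G)` (see `OrbitNumbersDecide`).
-/

set_option autoImplicit false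

noncomputable section

namespace Pool.Agent.Results.MP_1ae3da_al.PAdicRepresentations

/-- `Irr_{p'}(G)`: the characters of the irreducible complex representations of `G` of degree prime
to `p`. -/
def IrrP (p : ℕ) (G : Type) [Group G] : Set (G → ℂ) :=
  {χ | (∃ (V : Type) (_ : AddCommGroup V) (_ : Module ℂ V) (_ : FiniteDimensional ℂ V)
    (ρ : Representation ℂ G V), ρ.IsIrreducible ∧ χ = ρ.character) ∧
    ∃ n : ℕ, (n : ℂ) = χ 1 ∧ ¬ p ∣ n}

/-- The normalizer `N_G(P)` of a Sylow subgroup `P`. -/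
abbrev N {p : ℕ} {G : Type} [Group G] (P : Sylow p G) : Type :=
  Subgroup.normalizer ((P : Subgroup G) : Set G)

/-- `𝓗_n`, `n = p ^ a m` with `m` prime to `p`: the automorphisms `σ` of `ℂ` for which there is an `e ≥ 0`
with `σ ξ = ξ ^ (p ^ e)` for all `ξ` with `ξ ^ m = 1`. -/
def calH (p n : ℕ) : Set (ℂ ≃+* ℂ) :=
  {σ | ∃ e : ℕ, ∀ ξ : ℂ, ξ ^ (n / p ^ n.factorization p) = 1 → σ ξ = ξ ^ p ^ e}

/-- `𝓕_n`, `n = p ^ a m` with `m` prime to `p`: the automorphisms in `𝓗_n` which fix the roots of unity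
of order dividing `p ^ a`. -/
def calF (p n : ℕ) : Set (ℂ ≃+* ℂ) :=
  {σ | σ ∈ calH p n ∧ ∀ ξ : ℂ, ξ ^ p ^ n.factorization p = 1 → σ ξ = ξ}

/-- The number of orbits of `𝓗_n` on `Irr_{p'}(L)`. -/
def numOrb (p n : ℕ) (L : Type) [Group L] : ℕ :=
  Nat.card (Quot fun χ ψ : IrrP p L => ∃ σ ∈ calH p n, ∀ g, (ψ : L → ℂ) g = σ ((χ : L → ℂ) g))

/-- The numbers of orbits of `𝓗_n`, `n = |G|`, on `Irr_{p'}(G)` and on `Irr_{p'}(N_G(P))` are equal. -/
def SameNumber {p : ℕ} {G : Type} [Group G] (P : Sylow p G) : Prop :=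
  numOrb p (Nat.card G) G = numOrb p (Nat.card G) (N P)

/-- The actions of `𝓕_n`, `n = |G|`, on `Irr_{p'}(G)` and on `Irr_{p'}(N_G(P))` are permutation
isomorphic. -/
def SameAction {p : ℕ} {G : Type} [Group G] (P : Sylow p G) : Prop :=
  ∃ f : IrrP p G ≃ IrrP p (N P), ∀ σ ∈ calF p (Nat.card G), ∀ χ ψ : IrrP p G,
    (∀ g, (ψ : G → ℂ) g = σ ((χ : G → ℂ) g)) → ∀ g, (f ψ : N P → ℂ) g = σ ((f χ : N P → ℂ) g)

/-- The cyclic group of order `k`. -/
abbrev Cyc (k : ℕ) : Type := Multiplicative (ZMod k)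

/-- A class of groups, given by a predicate. -/
abbrev Cls : Type 1 := (G : Type) → [Group G] → Prop

section bridge

open Pool.Agent.U573.ON Pool.Agent.U152.IN

variable {p : ℕ} [hp : Fact p.Prime]

theorem card_prod_cyc (G : Type) (r : ℕ) : Nat.card (G × Cyc r) = Nat.card G * r := by
  rw [Nat.card_prod]
  congr 1
  exact Nat.card_zmod r

theorem level_eq {n r : ℕ} (c : ℕ) (hn : 0 < n) (hr : 0 < r) (hpr : ¬ p ∣ r) :
    (n * (p ^ c * r)) / p ^ (n * (p ^ c * r)).factorization p =
      n / p ^ n.factorization p * r := by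
  have hpc : p ^ c ≠ 0 := (Nat.pow_pos hp.out.pos).ne'
  have hk : p ^ c * r ≠ 0 := mul_ne_zero hpc hr.ne'
  have hv : (n * (p ^ c * r)).factorization p = n.factorization p + c := by
    rw [Nat.factorization_mul hn.ne' hk, Nat.factorization_mul hpc hr.ne',
      hp.out.factorization_pow]
    simp [Nat.factorization_eq_zero_of_not_dvd hpr]
  rw [hv]
  obtain ⟨m, hm⟩ := Nat.ordProj_dvd n p
  generalize n.factorization p = a at hm ⊢
  subst hm
  rw [Nat.mul_div_cancel_left _ (Nat.pow_pos hp.out.pos)]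
  have e2 : p ^ a * m * (p ^ c * r) = p ^ (a + c) * (m * r) := by
    rw [pow_add]
    ring
  rw [e2, Nat.mul_div_cancel_left _ (Nat.pow_pos hp.out.pos)]

theorem calH_eq {n r : ℕ} (c : ℕ) (hn : 0 < n) (hr : 0 < r) (hpr : ¬ p ∣ r) :
    calH p (n * (p ^ c * r)) = Hq p (n / p ^ n.factorization p * r) := by
  unfold calH Hq
  rw [level_eq c hn hr hpr]

theorem quot_eq {G : Type} [Group G] [Finite G] (P : Sylow p G) {r : ℕ} (c : ℕ) (hr : 0 < r)
    (hpr : ¬ p ∣ r) (hq : 0 < Nat.card G / p ^ (Nat.card G).factorization p * r)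
    (hpq : Nat.Coprime p (Nat.card G / p ^ (Nat.card G).factorization p * r))
    (Q : Sylow p (G × Cyc (p ^ c * r))) (hQ : SameNumber Q) :
    Nat.card (Quotient (sH (p := p) G (p ^ c * r) _ hq hpq)) =
      Nat.card (Quotient (sH (p := p) (N P) (p ^ c * r) _ hq hpq)) := by
  have hk : 0 < p ^ c * r := Nat.mul_pos (Nat.pow_pos hp.out.pos) hr
  have _i : NeZero (p ^ c * r) := ⟨hk.ne'⟩
  obtain ⟨e⟩ := norm_cyc P (p ^ c * r) Q
  rw [← orbH_eq (p := p) (MulEquiv.refl (G × Cyc (p ^ c * r))) hq hpq,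
    ← orbH_eq (p := p) e hq hpq]
  unfold SameNumber numOrb at hQ
  rw [card_prod_cyc, calH_eq c Nat.card_pos hr hpr] at hQ
  exact hQ

theorem action_of_number {G : Type} [Group G] [Finite G] (P : Sylow p G)
    (H : ∀ k, 0 < k → ∃ Q : Sylow p (G × Cyc k), SameNumber Q) : SameAction P := by
  have hn : 0 < Nat.card G := Nat.card_pos
  have hN : Nat.card (N P) ∣ Nat.card G := Subgroup.card_subgroup_dvd_card _
  obtain ⟨τ, h1, h2⟩ := exists_fro (p := p) (Nat.card G) hn
  have key := fix_eq (p := p) (K := G) (K' := N P) hn dvd_rfl hN h1 h2 (by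
    intro r hr hpr
    have _i : NeZero r := ⟨hr.ne'⟩
    obtain ⟨τ', g1, g2⟩ := exists_fro (p := p) (Nat.card G * r) (Nat.mul_pos hn hr)
    have hq : 0 < Nat.card G / p ^ (Nat.card G).factorization p * r :=
      Nat.mul_pos (Nat.ordCompl_pos p hn.ne') hr
    have hpq : Nat.Coprime p (Nat.card G / p ^ (Nat.card G).factorization p * r) :=
      Nat.Coprime.mul_right (Nat.coprime_ordCompl hp.out hn.ne')
        ((Nat.Prime.coprime_iff_not_dvd hp.out).2 hpr)
    obtain ⟨Q1, hQ1⟩ := H (p ^ ((Nat.card G).factorization p + 1) * r)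
      (Nat.mul_pos (Nat.pow_pos hp.out.pos) hr)
    obtain ⟨Q0, hQ0⟩ := H (p ^ (Nat.card G).factorization p * r)
      (Nat.mul_pos (Nat.pow_pos hp.out.pos) hr)
    have a1 := quot_eq P ((Nat.card G).factorization p + 1) hr hpr hq hpq Q1 hQ1
    have a0 := quot_eq P ((Nat.card G).factorization p) hr hpr hq hpq Q0 hQ0
    have t1 := orbits_top (p := p) (K := G) hn dvd_rfl hr hpr hq hpq g1 g2
    have t2 := orbits_top (p := p) (K := N P) hn hN hr hpr hq hpq g1 g2
    rw [orb_eq (p := p) (MulEquiv.refl (G × Cyc r)) (Nat.mul_pos hn hr)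
        (by rw [card_prod_cyc]) g1 g2,
      orb_eq (p := p) (MulEquiv.refl (N P × Cyc r)) (Nat.mul_pos hn hr)
        (by rw [card_prod_cyc]; exact Nat.mul_dvd_mul_right hN r) g1 g2]
    rw [a1, a0, t2] at t1
    exact (Nat.add_left_cancel t1).symm)
  obtain ⟨f, hf⟩ := bij_of_fix key
  refine ⟨f, fun σ hσ χ ψ hψ g => ?_⟩
  obtain ⟨j, hj⟩ := fro_agree (p := p) hn h1 h2 hσ
  obtain ⟨k1, k2⟩ := hf (τ ^ j) (Subgroup.npow_mem_zpowers τ j) χ
  have k3 : (ψ : G → ℂ) = fun g => (τ ^ j) ((χ : G → ℂ) g) := by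
    funext g
    rw [hψ g]
    exact agree χ.2.1 hn dvd_rfl hj g
  have k4 : ∀ ψ' : XP p G, (ψ' : G → ℂ) = (fun g => (τ ^ j) ((χ : G → ℂ) g)) →
      ((f ψ' : XP p (N P)) : N P → ℂ) g = (τ ^ j) (((f χ : XP p (N P)) : N P → ℂ) g) := by
    intro ψ' h'
    have h3 : ψ' = ⟨fun g => (τ ^ j) ((χ : G → ℂ) g), k1⟩ := Subtype.ext h'
    rw [h3]
    exact congrFun k2 g
  exact (k4 ψ k3).trans (agree (f χ).2.1 hn hN hj g).symm

end bridge

/-- **(1)** one group, **(2)** a class of groups -/
theorem result (p : ℕ) [Fact p.Prime] :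
    (∀ (G : Type) [Group G] [Finite G] (P : Sylow p G),
      (∀ k : ℕ, 0 < k → ∀ Q : Sylow p (G × Cyc k), SameNumber Q) → SameAction P) ∧
    (∀ C : Cls, (∀ k : ℕ, 0 < k → ∀ (G : Type) [Group G] [Finite G], C G → C (G × Cyc k)) →
      (∀ (G : Type) [Group G] [Finite G], C G → ∀ P : Sylow p G, SameNumber P) →
        ∀ (G : Type) [Group G] [Finite G], C G → ∀ P : Sylow p G, SameAction P) := by
  constructor
  · intro G _ _ P h
    exact action_of_number P fun k hk => ⟨default, h k hk default⟩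
  · intro C hC h G _ _ hG P
    refine action_of_number P fun k hk => ⟨default, ?_⟩
    have _i : NeZero k := ⟨hk.ne'⟩
    exact h (G × Cyc k) (hC k hk G hG) default

end Pool.Agent.Results.MP_1ae3da_al.PAdicRepresentations
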