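import Pool.Agent.U152.IN.Bij

/-!
# The McKay–Galois conjecture for the automorphisms acting with odd order: parity decides

Let `p` be an odd prime.

Proof. The characters of `G ≀ C₂` of degree prime to `p` are the induced characters of the products
`θ₁ × θ₂`, `θ₁ ≠ θ₂`, and the two extensions of `θ × θ` (`Pool.Agent.Q90.WR`, starting files), with `θ`'s
in `Irr_{p'}(G)`; a field automorphism which permutes `Irr_{p'}(G)` with odd order fixes the former if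
and only if it fixes `θ₁` and `θ₂`. So the number `n` of the characters fixed by a group `Γ` of such
automorphisms satisfies `2 n(G ≀ C₂) = n(G)² + 3 n(G)`, and the same holds for the normalizer of the
Sylow subgroup `P × P`, which is `N_G(P) ≀ C₂`. If the two numbers for `G` differ by `2 ^ a` times an odd
number, `a ≥ 1`, then those for `G ≀ C₂` differ by `2 ^ (a - 1)` times an odd number. Two finite
`Γ`-sets are isomorphic if all subgroups of `Γ` have the same numbers of fixed points in them.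
-/

set_option autoImplicit false

noncomputable section

namespace Pool.Agent.Results.MP_1ae3da_al.ParityOddPart

open Pool.Agent.Q90.WR (Wr WrN)

/-- `Irr_{p'}(G)`: the characters of the irreducible complex representations of `G` of degree prime
to `p`. -/
def IrrP (p : ℕ) (G : Type) [Group G] : Set (G → ℂ) :=
  {χ | (∃ (V : Type) (_ : AddCommGroup V) (_ : Module ℂ V) (_ : FiniteDimensional ℂ V)
    (ρ : Representation ℂ G V), ρ.IsIrreducible ∧ χ = ρ.character) ∧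
    ∃ n : ℕ, (n : ℂ) = χ 1 ∧ ¬ p ∣ n}

/-- The normalizer `N_G(P)` of a Sylow subgroup `P`. -/
abbrev N {p : ℕ} {G : Type} [Group G] (P : Sylow p G) : Type :=
  Subgroup.normalizer ((P : Subgroup G) : Set G)

/-- Navarro's group `𝓗`: the automorphisms `σ` of `ℂ` such that for every `m` prime to `p` there is an
`e ≥ 0` with `σ ξ = ξ ^ (p ^ e)` for all `m`-th roots of unity `ξ`. -/
def calH (p : ℕ) : Set (ℂ ≃+* ℂ) :=
  {σ | ∀ m : ℕ, ¬ p ∣ m → ∃ e : ℕ, ∀ ξ : ℂ, ξ ^ m = 1 → σ ξ = ξ ^ p ^ e}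

/-- The actions of `Γ` on `Irr_{p'}(G)` and on `Irr_{p'}(N_G(P))` are permutation isomorphic. -/
def McKay {p : ℕ} (Γ : Subgroup (ℂ ≃+* ℂ)) {G : Type} [Group G] (P : Sylow p G) : Prop :=
  ∃ f : IrrP p G ≃ IrrP p (N P), ∀ σ ∈ Γ, ∀ χ ψ : IrrP p G,
    (∀ g, (ψ : G → ℂ) g = σ ((χ : G → ℂ) g)) → ∀ g, (f ψ : N P → ℂ) g = σ ((f χ : N P → ℂ) g)

/-- The number of the `χ ∈ Irr_{p'}(G)` fixed by all `σ ∈ Γ`. -/
def num (p : ℕ) (Γ : Subgroup (ℂ ≃+* ℂ)) (G : Type) [Group G] : ℕ :=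
  Nat.card {χ : G → ℂ // χ ∈ IrrP p G ∧ ∀ σ ∈ Γ, ∀ g, σ (χ g) = χ g}

/-- For every `σ ∈ Γ` there is an exponent `m` with the property `E` such that `σ ^ m` fixes all
characters in `Irr_{p'}(G)`. -/
def Acts (p : ℕ) (E : ℕ → Prop) (Γ : Subgroup (ℂ ≃+* ℂ)) (G : Type) [Group G] : Prop :=
  ∀ σ ∈ Γ, ∃ m : ℕ, E m ∧ ∀ χ ∈ IrrP p G, ∀ g, (σ ^ m) (χ g) = χ g

section bridge

open Pool.Agent.U152.IN Pool.Agent.Q259.BW Pool.Agent.H254R3.IN Pool.Agent.Q90.WR

variable {p : ℕ} [hp : Fact p.Prime]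

theorem odd_top : Odd (Nat.card ((ZMod p)ˣ ⧸ (⊤ : Subgroup (ZMod p)ˣ))) := by
  have : Subsingleton ((ZMod p)ˣ ⧸ (⊤ : Subgroup (ZMod p)ˣ)) :=
    QuotientGroup.subsingleton_quotient_top
  rw [Nat.card_of_subsingleton (1 : (ZMod p)ˣ ⧸ (⊤ : Subgroup (ZMod p)ˣ))]
  exact odd_one

theorem num_eq (Γ : Subgroup (ℂ ≃+* ℂ)) (H : Type) [Group H]
    (c : (ZMod p)ˣ ⧸ (⊤ : Subgroup (ZMod p)ˣ)) :
    (num p Γ H : ℤ) = nf ⊤ (Γ : Set (ℂ ≃+* ℂ)) H c := by
  have : Subsingleton ((ZMod p)ˣ ⧸ (⊤ : Subgroup (ZMod p)ˣ)) :=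
    QuotientGroup.subsingleton_quotient_top
  unfold num nf nu
  congr 1
  refine Nat.card_congr (Equiv.subtypeEquivRight fun χ => ?_)
  constructor
  · rintro ⟨h1, h2⟩
    obtain ⟨q, hq⟩ := exists_InCl ⊤ h1.2
    rw [Subsingleton.elim c q]
    exact ⟨⟨h1, h2⟩, hq⟩
  · rintro ⟨⟨h1, h2⟩, h3⟩
    exact ⟨h1, h2⟩

theorem mckay_iff (Γ : Subgroup (ℂ ≃+* ℂ)) {G : Type} [Group G] (P : Sylow p G) :
    McKay Γ P ↔ DBij (⊤ : Subgroup (ZMod p)ˣ) (Γ : Set (ℂ ≃+* ℂ)) (XP p G) (XP p (NS P)) := by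
  have hs : Subsingleton ((ZMod p)ˣ ⧸ (⊤ : Subgroup (ZMod p)ˣ)) :=
    QuotientGroup.subsingleton_quotient_top
  constructor
  · rintro ⟨f, h1⟩
    refine ⟨f, fun σ hσ χ => ?_, fun χ => ?_⟩
    · have h3 := stable_XP (Γ : Set (ℂ ≃+* ℂ)) σ hσ _ χ.2
      exact ⟨h3, funext (h1 σ hσ χ ⟨_, h3⟩ fun _ => rfl)⟩
    · rw [same_class χ.2.2]
      obtain ⟨q, hq⟩ := exists_InCl ⊤ χ.2.2
      obtain ⟨q', hq'⟩ := exists_InCl ⊤ (f χ).2.2
      rw [Subsingleton.elim q' q] at hq'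
      exact ⟨q, hq, hq'⟩
  · rintro ⟨f, h1, -⟩
    refine ⟨f, fun σ hσ χ ψ h g => ?_⟩
    obtain ⟨h3, h4⟩ := h1 σ hσ χ
    have h5 : ψ = ⟨fun g => σ ((χ : G → ℂ) g), h3⟩ := Subtype.ext (funext h)
    rw [h5]
    exact congrFun h4 g

theorem mod_iff {a b : ℕ} : a ≡ b [MOD 2] ↔ (2 : ℤ) ∣ (a : ℤ) - b := by
  rw [Nat.ModEq.comm, Nat.modEq_iff_dvd]
  rfl

theorem par (Γ : Subgroup (ℂ ≃+* ℂ)) (K L : Type) [Group K] [Group L] :
    num p Γ K ≡ num p Γ L [MOD 2] ↔ ∀ c : (ZMod p)ˣ ⧸ (⊤ : Subgroup (ZMod p)ˣ),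
      (2 : ℤ) ∣ nf ⊤ (Γ : Set (ℂ ≃+* ℂ)) K c - nf ⊤ (Γ : Set (ℂ ≃+* ℂ)) L c := by
  rw [mod_iff]
  constructor
  · intro h c
    rwa [num_eq Γ K c, num_eq Γ L c] at h
  · intro h
    rw [num_eq Γ K 1, num_eq Γ L 1]
    exact h 1

theorem acts_congr {E : ℕ → Prop} {Γ : Subgroup (ℂ ≃+* ℂ)} {H K : Type} [Group H] [Group K]
    [Finite H] [Finite K] (e : H ≃* K) (h : Acts p E Γ K) : Acts p E Γ H := by
  intro σ hσ
  obtain ⟨m, h1, h2⟩ := h σ hσ
  refine ⟨m, h1, fun χ hχ g => ?_⟩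
  have h3 : χ ∈ pull e (XP p K) := by
    rw [← XP_pull e]
    exact hχ
  have := h2 _ h3 (e g)
  simpa using this

theorem acts_wr (hp2 : p ≠ 2) {E : ℕ → Prop} {Γ : Subgroup (ℂ ≃+* ℂ)} {G : Type} [Group G]
    [Finite G] (h : Acts p E Γ G) : Acts p E Γ (Wr G) := by
  have := Fintype.ofFinite G
  intro σ hσ
  obtain ⟨m, h1, hf⟩ := h σ hσ
  refine ⟨m, h1, fun χ hχ => ?_⟩
  have h3 : χ ∈ WrS (XP p G) := by
    rw [← XP_wr hp2]
    exact hχ
  have hf' : ∀ θ ∈ XP p G, FixedBy (σ ^ m) θ := hf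
  have hg : FixedBy (σ ^ m) χ := by
    rcases h3 with ⟨θ₁, h1, θ₂, h2, hne, rfl⟩ | ⟨θ, h1, rfl | rfl⟩
    · intro x
      rw [gal_ind2, fixedBy_iff.mp (hf' θ₁ h1), fixedBy_iff.mp (hf' θ₂ h2)]
    · exact (fixed_ext2 (by norm_num) (map_one _) (XP_irr _ h1)).mpr (hf' θ h1)
    · exact (fixed_ext2 (by norm_num) (by simp) (XP_irr _ h1)).mpr (hf' θ h1)
  exact hg

theorem acts_lev (hp2 : p ≠ 2) {E : ℕ → Prop} {Γ : Subgroup (ℂ ≃+* ℂ)} :
    ∀ (j : ℕ) (G : Type) [Group G] [Finite G] (P : Sylow p G),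
      Acts p E Γ G → Acts p E Γ (N P) → ∀ Q : Sylow p (WrN j G), Acts p E Γ (WrN j G) ∧
        Acts p E Γ (N Q) := by
  intro j
  induction j with
  | zero =>
    intro G _ _ P h1 h2 Q
    obtain ⟨e⟩ := norm_equiv Q P
    exact ⟨h1, acts_congr (H := N Q) (K := N P) e h2⟩
  | succ j ih =>
    intro G _ _ P h1 h2 Q
    obtain ⟨T, hT⟩ := exists_sylow hp2 P
    have e : Nonempty (N T ≃* Wr (N P)) := by
      unfold N
      rw [hT]
      exact ⟨normEquiv _⟩
    obtain ⟨e⟩ := e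
    exact ih (Wr G) T (acts_wr hp2 h1) (acts_congr e (acts_wr hp2 h2)) Q

theorem acts_odd {E : ℕ → Prop} (hE : ∀ m, E m → Odd m) {Γ : Subgroup (ℂ ≃+* ℂ)} {H : Type}
    [Group H] (h : Acts p E Γ H) : Odd' p (Γ : Set (ℂ ≃+* ℂ)) H := by
  intro σ hσ
  obtain ⟨m, h1, h2⟩ := h σ hσ
  exact ⟨m, hE m h1, h2⟩

end bridge

/-- **The McKay–Galois conjecture, automorphisms acting with odd order: parity decides.** Let `p` be an
odd prime, and let `E` be a set of odd exponents, for example all odd numbers, or the powers of `p`.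

(1) Let `C` be a class of finite groups closed under `G ↦ G ≀ C₂` (for example all finite groups), and
`H` a set of field automorphisms (for example Navarro's group `𝓗`). The following are equivalent. (a) For
all `G ∈ C`, all Sylow `p`-subgroups `P` and all groups `Γ ⊆ H` such that every `σ ∈ Γ` has a power with
exponent in `E` fixing all characters in `Irr_{p'}(G)` and one fixing those in `Irr_{p'}(N_G(P))`, the
actions of `Γ` on `Irr_{p'}(G)` and on `Irr_{p'}(N_G(P))` are permutation isomorphic. (b) For all these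
`G`, `P`, `Γ` the numbers of the fixed points of `Γ` on the two sets have the same parity.

(2) For one group: let `P` be a Sylow `p`-subgroup of the finite group `G` and `Γ` as in (1). Then
`2 ^ a` divides the difference of the numbers of fixed points if and only if the parities agree for the
first `a` iterated wreath products `WrN j G`, `j < a`; and the two actions of `Γ` are isomorphic if and
only if the parities agree for all subgroups `Δ` of `Γ` and all `WrN j G` with `2 ^ j ≤ |G|`.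

(3) `𝓗` is a group. -/
theorem result (p : ℕ) [Fact p.Prime] (hp2 : p ≠ 2) (E : ℕ → Prop) (hE : ∀ m, E m → Odd m) :
    -- (1)
    (∀ C : (G : Type) → Group G → Prop,
      (∀ (G : Type) [i : Group G], C G i → Finite G ∧ C (Wr G) inferInstance) →
      ∀ H : Set (ℂ ≃+* ℂ),
      ((∀ (G : Type) [i : Group G], C G i → ∀ (P : Sylow p G) (Γ : Subgroup (ℂ ≃+* ℂ)),
        (Γ : Set (ℂ ≃+* ℂ)) ⊆ H → Acts p E Γ G → Acts p E Γ (N P) → McKay Γ P) ↔
      ∀ (G : Type) [i : Group G], C G i → ∀ (P : Sylow p G) (Γ : Subgroup (ℂ ≃+* ℂ)),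
        (Γ : Set (ℂ ≃+* ℂ)) ⊆ H → Acts p E Γ G → Acts p E Γ (N P) →
        num p Γ G ≡ num p Γ (N P) [MOD 2])) ∧
    -- (2)
    (∀ (G : Type) [Group G] [Finite G] (P : Sylow p G) (Γ : Subgroup (ℂ ≃+* ℂ)), Acts p E Γ G →
      Acts p E Γ (N P) →
      (∀ a : ℕ, (2 : ℤ) ^ a ∣ (num p Γ G : ℤ) - num p Γ (N P) ↔
        ∀ j < a, ∀ Q : Sylow p (WrN j G), num p Γ (WrN j G) ≡ num p Γ (N Q) [MOD 2]) ∧
      (McKay Γ P ↔ ∀ Δ ≤ Γ, ∀ j, 2 ^ j ≤ Nat.card G → ∀ Q : Sylow p (WrN j G),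
        num p Δ (WrN j G) ≡ num p Δ (N Q) [MOD 2])) ∧
    -- (3)
    ∃ K : Subgroup (ℂ ≃+* ℂ), (K : Set (ℂ ≃+* ℂ)) = calH p := by
  have mono : ∀ {Δ Γ : Subgroup (ℂ ≃+* ℂ)} {K : Type} [Group K], Δ ≤ Γ → Acts p E Γ K →
      Acts p E Δ K := fun hΔ h σ hσ => h σ (hΔ hσ)
  refine ⟨fun C hC H => ?_, fun G _ _ P Γ o1 o2 => ⟨fun a => ?_, ?_⟩, ?_⟩
  · have hN : ∀ (j : ℕ) (G : Type) [i : Group G], C G i → C (WrN j G) inferInstance := by
      intro j
      induction j with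
      | zero => exact fun G _ h => h
      | succ j ih => exact fun G _ h => ih (Wr G) (hC G h).2
    constructor
    · intro h G _ hG P Γ hΓ o1 o2
      have := (hC G hG).1
      rw [par]
      intro c
      rw [(Pool.Agent.U152.IN.dbij_iff Γ G (N P)).mp ((mckay_iff Γ P).mp (h G hG P Γ hΓ o1 o2)) Γ
        le_rfl c, sub_self]
      exact dvd_zero _
    · intro h G _ hG P Γ hΓ o1 o2
      have := (hC G hG).1
      rw [mckay_iff, Pool.Agent.U152.IN.one_group hp2 odd_top G P Γ (acts_odd hE o1)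
        (acts_odd hE o2)]
      intro Δ hΔ j _ Q
      rw [← par]
      obtain ⟨q1, q2⟩ := acts_lev hp2 j G P (mono hΔ o1) (mono hΔ o2) Q
      exact h (WrN j G) (hN j G hG) Q Δ (fun σ hσ => hΓ (hΔ hσ)) q1 q2
  · constructor
    · intro h j hj Q
      rw [par]
      intro c
      have h1 : ∀ c, (2 : ℤ) ^ (j + 1) ∣ Pool.Agent.U152.IN.nf (⊤ : Subgroup (ZMod p)ˣ)
          (Γ : Set (ℂ ≃+* ℂ)) G c - Pool.Agent.U152.IN.nf (⊤ : Subgroup (ZMod p)ˣ)
          (Γ : Set (ℂ ≃+* ℂ)) (N P) c := by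
        intro c
        rw [← num_eq, ← num_eq]
        exact (pow_dvd_pow 2 (by omega)).trans h
      have h2 := Pool.Agent.U152.IN.levels_of_dvd hp2 odd_top j 1 G P (acts_odd hE o1)
        (acts_odd hE o2) h1 Q c
      rwa [pow_one] at h2
    · intro h
      rcases a with _ | a
      · rw [pow_zero]
        exact one_dvd _
      · have h1 := Pool.Agent.U152.IN.dvd_of_levels hp2 odd_top a G P (acts_odd hE o1)
          (acts_odd hE o2) (fun j hj Q => (par Γ _ _).mp (h j (by omega) Q)) 1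
        rw [num_eq Γ G 1, num_eq Γ (N P) 1]
        exact h1
  · rw [mckay_iff, Pool.Agent.U152.IN.one_group hp2 odd_top G P Γ (acts_odd hE o1)
      (acts_odd hE o2)]
    refine forall₂_congr fun Δ hΔ => forall₂_congr fun j hj => forall_congr' fun Q => ?_
    exact (par Δ _ _).symm
  · refine ⟨{ carrier := calH p, one_mem' := ?_, mul_mem' := ?_, inv_mem' := ?_ }, rfl⟩
    · intro a b ha hb m hm
      obtain ⟨e, he⟩ := ha m hm
      obtain ⟨f, hf⟩ := hb m hm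
      refine ⟨f + e, fun ξ hξ => ?_⟩
      rw [RingAut.mul_apply, hf ξ hξ, map_pow, he ξ hξ, ← pow_mul, pow_add, mul_comm]
    · intro m hm
      exact ⟨0, fun ξ hξ => by rw [pow_zero, pow_one]; rfl⟩
    · intro a ha m hm
      obtain ⟨e, he⟩ := ha m hm
      rcases Nat.eq_zero_or_pos m with rfl | hm0
      · exact absurd (dvd_zero p) hm
      have hcop : Nat.Coprime (p ^ e) m :=
        Nat.Coprime.pow_left _ ((Nat.Prime.coprime_iff_not_dvd Fact.out).mpr hm)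
      -- `p ^ (e * (φ(m) - 1))` is an inverse of `p ^ e` modulo `m`
      have hφ : 1 ≤ Nat.totient m := Nat.totient_pos.mpr hm0
      refine ⟨e * (Nat.totient m - 1), fun ξ hξ => ?_⟩
      have h1 : (a⁻¹ ξ) ^ m = 1 := by rw [← map_pow, hξ, map_one]
      have h2 : ξ = (a⁻¹ ξ) ^ p ^ e := by
        rw [← he _ h1]
        exact (RingEquiv.apply_symm_apply a ξ).symm
      have h3 : (p ^ e) ^ Nat.totient m ≡ 1 [MOD m] := Nat.ModEq.pow_totient hcop
      have h4 : (a⁻¹ ξ) ^ ((p ^ e) ^ Nat.totient m) = a⁻¹ ξ := by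
        have h5 := pow_eq_pow_of_modEq h3 h1
        rw [h5, pow_one]
      conv_rhs => rw [h2]
      rw [← pow_mul, ← pow_add, show e + e * (Nat.totient m - 1) = e * Nat.totient m by
        obtain ⟨t, ht⟩ := Nat.exists_eq_add_of_le hφ
        rw [ht, Nat.add_sub_cancel_left]
        ring, pow_mul p e, h4]

end Pool.Agent.Results.MP_1ae3da_al.ParityOddPart
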